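import Pool.Agent.Work.MP_b103ef_al_helper93.DenseMain

set_option autoImplicit false

namespace Pool.Agent.Results.MP_b103ef_al.DenseSimpleQuotient

open Pool.Agent.Work.MP_b103ef_al_h93

/-- There is a lattice `L` that embeds in a power of the pentagon such that every modular lattice `K`
whose congruence lattice is isomorphic to that of `L` has a maximal proper congruence `ψ` for which
`K / ψ` has no prime interval. -/
theorem result :
    ∃ (L : Type) (_ : Lattice L),
      (∃ (N : Type) (_ : Lattice N), Nat.card N = 5 ∧ ¬ IsModularLattice N ∧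
        ∃ (I : Type) (f : LatticeHom L (I → N)), Function.Injective f) ∧
      ∀ (K : Type) [Lattice K], IsModularLattice K →
        Nonempty
          ({r : L → L → Prop // Equivalence r ∧
            ∀ a b c d : L, r a b → r c d → r (a ⊔ c) (b ⊔ d) ∧ r (a ⊓ c) (b ⊓ d)} ≃o
           {r : K → K → Prop // Equivalence r ∧
            ∀ a b c d : K, r a b → r c d → r (a ⊔ c) (b ⊔ d) ∧ r (a ⊓ c) (b ⊓ d)}) →
        ∃ ψ : {r : K → K → Prop // Equivalence r ∧
            ∀ a b c d : K, r a b → r c d → r (a ⊔ c) (b ⊔ d) ∧ r (a ⊓ c) (b ⊓ d)},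
          (∃ s t : K, ¬ ψ.1 s t) ∧
          (∀ η : {r : K → K → Prop // Equivalence r ∧
            ∀ a b c d : K, r a b → r c d → r (a ⊔ c) (b ⊔ d) ∧ r (a ⊓ c) (b ⊓ d)}, ψ ≤ η → η = ψ ∨ ∀ s t : K, η.1 s t) ∧
          ∀ x y : K, x ≤ y → ¬ ψ.1 x y → ∃ z : K, x ≤ z ∧ z ≤ y ∧ ¬ ψ.1 x z ∧ ¬ ψ.1 z y := by
  let X : Type := (Cardinal.aleph Ordinal.omega0).out
  have hX : ∀ k : ℕ, Cardinal.aleph (k : Ordinal) ≤ Cardinal.mk X := by
    intro k
    have h1 : Cardinal.mk X = Cardinal.aleph Ordinal.omega0 := Cardinal.mk_out _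
    rw [h1, Cardinal.aleph_le_aleph]
    exact (Ordinal.natCast_lt_omega0 k).le
  refine ⟨FL X, inferInstance, ⟨N5, inferInstance, N5.card_eq, N5.not_modular, X → N5,
    (FL X).subtype, Subtype.val_injective⟩, ?_⟩
  intro K _ hK ⟨φ⟩
  have := hK
  exact dense_simple φ hX

end Pool.Agent.Results.MP_b103ef_al.DenseSimpleQuotient
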