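import Pool.Agent.Work.MP_b103ef_al_helper93.Dim

set_option autoImplicit false

namespace Pool.Agent.Results.MP_b103ef_al.DimensionCollapse

open Pool.Agent.Work.MP_b103ef_al_h93

/-- There is a lattice `L` that embeds in a power of the pentagon such that every modular lattice `K`
whose congruence lattice is isomorphic to that of `L` has a congruence `θ`, a finite set `E` and elements
`s ≤ t` of the sublattice generated by `E`, not congruent modulo `θ`, such that `D s t = 0` for every
function `D` that has the properties of a dimension function modulo `θ` on that sublattice, with values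
in a cancellative commutative monoid without nonzero invertible elements. -/
theorem result :
    ∃ (L : Type) (_ : Lattice L),
      (∃ (N : Type) (_ : Lattice N), Nat.card N = 5 ∧ ¬ IsModularLattice N ∧
        ∃ (I : Type) (f : LatticeHom L (I → N)), Function.Injective f) ∧
      ∀ (K : Type) [Lattice K], IsModularLattice K →
        Nonempty
          ({r : L → L → Prop // Equivalence r ∧
            ∀ a b c d : L, r a b → r c d → r (a ⊔ c) (b ⊔ d) ∧ r (a ⊓ c) (b ⊓ d)} ≃o
           {r : K → K → Prop // Equivalence r ∧
            ∀ a b c d : K, r a b → r c d → r (a ⊔ c) (b ⊔ d) ∧ r (a ⊓ c) (b ⊓ d)}) →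
        ∃ (θ : {r : K → K → Prop // Equivalence r ∧
            ∀ a b c d : K, r a b → r c d → r (a ⊔ c) (b ⊔ d) ∧ r (a ⊓ c) (b ⊓ d)}) (E : Set K), E.Finite ∧
          ∃ s ∈ latticeClosure E, ∃ t ∈ latticeClosure E, s ≤ t ∧ ¬ θ.1 s t ∧
          ∀ (M : Type) [AddCommMonoid M] [IsCancelAdd M], (∀ x y : M, x + y = 0 → x = 0) →
            ∀ D : K → K → M,
              (∀ x ∈ latticeClosure E, ∀ y ∈ latticeClosure E, x ≤ y → θ.1 x y → D x y = 0) →
              (∀ x ∈ latticeClosure E, ∀ y ∈ latticeClosure E, ∀ z ∈ latticeClosure E,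
                x ≤ y → y ≤ z → D x z = D x y + D y z) →
              (∀ x ∈ latticeClosure E, ∀ y ∈ latticeClosure E, D (x ⊓ y) y = D x (x ⊔ y)) →
              D s t = 0 := by
  let X : Type := (Cardinal.aleph ((2 : ℕ) : Ordinal)).out
  have hX : Cardinal.aleph ((2 : ℕ) : Ordinal) ≤ Cardinal.mk X := (Cardinal.mk_out _).ge
  refine ⟨FL X, inferInstance, ⟨N5, inferInstance, N5.card_eq, N5.not_modular, X → N5,
    (FL X).subtype, Subtype.val_injective⟩, ?_⟩
  intro K _ hK ⟨φ⟩
  have := hK
  exact dim_collapse φ hX

end Pool.Agent.Results.MP_b103ef_al.DimensionCollapse
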