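import Pool.Agent.Work.MP_b103ef_al_helper93.ThreePerm

set_option autoImplicit false

namespace Pool.Agent.Results.MP_b103ef_al.NotThreePermutable

open Pool.Agent.Work.MP_b103ef_al_h93

/-- There is a lattice `L` that embeds in a power of the pentagon such that every modular lattice `K`
whose congruence lattice is isomorphic to that of `L` has two congruences `ψ`, `ψ'` and a pair s, t in
their join that is neither in `ψ ∘ ψ' ∘ ψ` nor in `ψ' ∘ ψ ∘ ψ'`. -/
theorem result :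
    ∃ (L : Type) (_ : Lattice L),
      (∃ (N : Type) (_ : Lattice N), Nat.card N = 5 ∧ ¬ IsModularLattice N ∧
        ∃ (I : Type) (f : LatticeHom L (I → N)), Function.Injective f) ∧
      ∀ (K : Type) [Lattice K], IsModularLattice K →
        Nonempty
          ({r : L → L → Prop // Equivalence r ∧
            ∀ a b c d : L, r a b → r c d → r (a ⊔ c) (b ⊔ d) ∧ r (a ⊓ c) (b ⊓ d)} ≃o
           {r : K → K → Prop // Equivalence r ∧
            ∀ a b c d : K, r a b → r c d → r (a ⊔ c) (b ⊔ d) ∧ r (a ⊓ c) (b ⊓ d)}) →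
        ∃ (ψ ψ' : {r : K → K → Prop // Equivalence r ∧
            ∀ a b c d : K, r a b → r c d → r (a ⊔ c) (b ⊔ d) ∧ r (a ⊓ c) (b ⊓ d)}) (s t : K),
          (∀ η : {r : K → K → Prop // Equivalence r ∧
            ∀ a b c d : K, r a b → r c d → r (a ⊔ c) (b ⊔ d) ∧ r (a ⊓ c) (b ⊓ d)}, ψ ≤ η → ψ' ≤ η → η.1 s t) ∧
          (¬ ∃ y z : K, ψ.1 s y ∧ ψ'.1 y z ∧ ψ.1 z t) ∧
          ¬ ∃ y z : K, ψ'.1 s y ∧ ψ.1 y z ∧ ψ'.1 z t := by
  let X : Type := (Cardinal.aleph ((2 : ℕ) : Ordinal)).out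
  have hX : Cardinal.aleph ((2 : ℕ) : Ordinal) ≤ Cardinal.mk X := (Cardinal.mk_out _).ge
  refine ⟨FL X, inferInstance, ⟨N5, inferInstance, N5.card_eq, N5.not_modular, X → N5,
    (FL X).subtype, Subtype.val_injective⟩, ?_⟩
  intro K _ hK ⟨φ⟩
  have := hK
  exact not_three_perm φ hX

end Pool.Agent.Results.MP_b103ef_al.NotThreePermutable
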